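import Pool.Agent.Helper71.ISL.Defs
import Pool.Agent.Helper56.UN.Main
import Pool.Agent.Helper34.UN.M_IN
import Pool.Agent.Helper8.UN.M_RE

/-!
# Project ISL: islands of every size, from the ring kernels of stage 1
-/

set_option autoImplicit false

open Set Filter Topology
open scoped ContDiff ComplexConjugate

noncomputable section

namespace Pool.Agent.Helper71.ISL

open Pool.Agent.Helper54.TRI (PatC)
open Pool.Agent.Helper56.FM (Gq)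
open Pool.Agent.Helper56.FU (CubN StUK)
open Pool.Agent.Helper56.UN
open Pool.Agent.Helper71.UN

theorem le_of_isl {Γ : ℤ → ℂ → Prop} {S : Finset ℤ} {m : ℤ} {r₁ r₂ : ℝ} {R : ℤ → ℂ → ℂ → ℝ}
    {Λ : Finset ℂ} (hm : m ≠ 0) (h1 : 0 < r₁) (h : IslK Γ S m r₁ r₂ R Λ) : r₁ ≤ r₂ := by
  by_contra hcon
  push Not at hcon
  obtain ⟨s, hs⟩ : ∃ s, s = (max r₂ 0 + r₁) / 2 := ⟨_, rfl⟩
  have h2 : max r₂ 0 < r₁ := max_lt hcon h1
  have h3 : r₂ ≤ max r₂ 0 := le_max_left _ _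
  have h4 : 0 ≤ max r₂ 0 := le_max_right _ _
  have hs0 : 0 ≤ s := by rw [hs]; linarith
  have hn : ‖(s : ℂ)‖ = s := by rw [Complex.norm_real, Real.norm_of_nonneg hs0]
  have e1 := h.inner (s : ℂ) (by rw [hn, hs]; linarith) 0 0
  have e2 := h.outer (s : ℂ) (by rw [hn, hs]; linarith) 0 0
  rw [e1] at e2
  simp [hm.symm] at e2

/-- Ring kernels for a complex cubic number with a given ratio. -/
theorem ring_of (hNET : StNET) (hHEX : StHEX) (hVXH : StVXH) (hNT : StNT) {κ : ℝ} (hκ : 1 < κ)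
    (hκ2 : 4 / 3 < κ ^ 2) {β : ℂ} {p q r : ℚ} (him : β.im ≠ 0)
    (hcub : β ^ 3 + (p : ℂ) * β ^ 2 + (q : ℂ) * β + (r : ℂ) = 0)
    (hirr : ∀ x : ℚ, x ^ 3 + p * x ^ 2 + q * x + r ≠ 0)
    (hn : ∀ n : ℕ, n ≠ 0 → ∀ x : ℚ, β ^ n ≠ (x : ℂ)) :
    ∃ S r₁ r₂ R Λ, RingK (Gq β) S r₁ r₂ R Λ ∧ 0 < r₁ ∧ r₂ < κ * r₁ := by
  obtain ⟨η, hη, hhex⟩ := hHEX κ hκ hκ2
  obtain ⟨k, l, v₀, a, a', τ, s, θ, hcfg⟩ := hNT β p q r him hcub hirr hn
    (min η (1 / 100)) (lt_min hη (by norm_num))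
  have hmono : ∀ η' : ℝ, min η (1 / 100) ≤ η' → Cfg (Gq β) η' k l v₀ a a' τ s θ := by
    intro η' h
    have hn : 0 ≤ ‖v₀‖ := norm_nonneg _
    exact { hcfg with
      ha := hcfg.ha.trans (mul_le_mul_of_nonneg_right h hn)
      ha' := hcfg.ha'.trans (mul_le_mul_of_nonneg_right h hn) }
  obtain ⟨σ, lam, r₁, r₂, hσ0, hσ1, hr1, hr2, hN⟩ := hhex (Gq β) k l v₀ a a' τ s θ
    (hmono η (min_le_left _ _))
  have hV := hVXH (Gq β) (1 / 100) k l v₀ a a' τ s θ σ lam le_rfl (hmono _ (min_le_right _ _))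
    (fun l u u' h h' => gq_add h h') (fun l u x h => gq_smul x h)
  choose M R₀ hM using hV
  obtain ⟨R, Λ, hR⟩ := hNET Bool (Bool × Fin 7) 6 _ (Gq β) {0, 1, k, l} r₁ r₂ M R₀ hN hM
    (gq_zero β) (fun c i z r hr => nu_smul k l v₀ a a' τ _ lam c i z r hr)
  exact ⟨_, r₁, r₂, R, Λ, hR, hr1, hr2⟩

/-- **ISL**, from stage 1. -/
theorem isl_of (hNET : StNET) (hHEX : StHEX) (hVXH : StVXH) (hNT : StNT) (hPW : StPW)
    (hTRK : StTRK) : StISL := by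
  intro β p q r t hC n ρ hn hρ
  have hβ : β ≠ 0 := by
    rintro rfl
    exact hC.im Complex.zero_im
  obtain ⟨p', q', r', hcub, hirr⟩ := hPW β p q r t hC n hn
  have him : (β ^ n).im ≠ 0 := Helper8.UN.m_RE β p q r t hC n hn
  obtain ⟨S', r₁, r₂, R', Λ', hR', hr1, hr2⟩ := ring_of hNET hHEX hVXH hNT
    (κ := 3 / 2) (by norm_num) (by norm_num) him hcub hirr
    (fun k hk x h => hC.nrat (n * k) (Nat.mul_ne_zero hn hk) x (by rw [pow_mul]; exact h))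
  obtain ⟨z, hz, hz0, hzn⟩ := Helper34.UN.m_IN β p q r t hC 0 n
  have hzp : 0 < ‖z‖ := norm_pos_iff.2 hz
  have hzr : 0 < ‖z‖ * r₁ := mul_pos hzp hr1
  obtain ⟨c, hc1, hc2⟩ := exists_rat_btwn (show ρ / (‖z‖ * r₁) < (4 / 3 * ρ) / (‖z‖ * r₁) from
    div_lt_div_of_pos_right (by linarith) hzr)
  rw [div_lt_iff₀ hzr] at hc1
  rw [lt_div_iff₀ hzr] at hc2
  have hc : (0 : ℝ) < c := by
    by_contra hcon
    have := mul_nonpos_of_nonpos_of_nonneg (not_lt.1 hcon) hzr.le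
    linarith
  have hcz : (c : ℂ) * z ≠ 0 := by
    refine mul_ne_zero ?_ hz
    intro h
    have : (c : ℝ) = 0 := by exact_mod_cast h
    exact hc.ne' this
  have hncz : ‖(c : ℂ) * z‖ = c * ‖z‖ := by
    rw [norm_mul]
    congr 1
    rw [show (c : ℂ) = ((c : ℝ) : ℂ) by push_cast; rfl, Complex.norm_real, Real.norm_of_nonneg hc.le]
  have hzn' : Gq β 0 (β ^ (-(n : ℤ)) * z) := by
    have := gq_pow hβ (n : ℤ) (-(n : ℤ)) z hzn
    rwa [add_neg_cancel] at this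
  have hlat : ∀ l v, Gq (β ^ n) l v → Gq β ((n : ℤ) * l) ((c : ℂ) * z * v) := by
    rintro l v ⟨x, y, rfl⟩
    have h1 : Gq β 0 ((c : ℂ) * ((x : ℂ) * z + (y : ℂ) * (β ^ (-(n : ℤ)) * z))) :=
      gq_smul c (gq_add (gq_smul x hz0) (gq_smul y hzn'))
    have h2 := gq_pow hβ 0 ((n : ℤ) * l) _ h1
    rw [zero_add] at h2
    convert h2 using 1
    have e1 : (β ^ n) ^ l = β ^ ((n : ℤ) * l) := by rw [zpow_mul, zpow_natCast]
    have e2 : (β ^ n)⁻¹ = β ^ (-(n : ℤ)) := by rw [zpow_neg, zpow_natCast]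
    rw [e1, e2]
    ring
  obtain ⟨S, R, Λ, hI⟩ := hTRK (Gq β) (Gq (β ^ n)) S' (n : ℤ) r₁ r₂ R' Λ' ((c : ℂ) * z)
    (by exact_mod_cast hn) hcz hlat hR'
  rw [hncz] at hI
  have k1 : ρ < c * ‖z‖ * r₁ := by linarith
  refine ⟨S, c * ‖z‖ * r₁, c * ‖z‖ * r₂, R, Λ, hI, k1,
    le_of_isl (by exact_mod_cast hn) (hρ.trans k1) hI, ?_⟩
  have k2 : c * ‖z‖ * r₂ < c * ‖z‖ * (3 / 2 * r₁) :=
    mul_lt_mul_of_pos_left hr2 (mul_pos hc hzp)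
  linarith

/-- **The universal kernel** for all moduli, from the modules. -/
theorem uk1_of (hCUT : StCUT) (hGAS : StGAS) (hTZ : StTZ) (hKZ : StKZ) (hISL : StISL) :
    StUK 1 := by
  intro β p q r hβ hcub hirr _
  have hβ0 : β ≠ 0 := by
    rintro rfl
    exact hβ.im Complex.zero_im
  obtain ⟨t, hC⟩ := exists_real hβ.im hcub hirr hβ.nrat
  have hb := hβ.one_lt
  obtain ⟨b, hbe⟩ : ∃ b, b = ‖β‖ := ⟨_, rfl⟩
  rw [← hbe] at hb
  obtain ⟨ρ, hρe⟩ : ∃ ρ, ρ = (1 + b) / 2 := ⟨_, rfl⟩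
  have hρ1 : 1 < ρ := by rw [hρe]; linarith
  have hρb : ρ < b := by rw [hρe]; linarith
  -- the label `m = n + 1`
  obtain ⟨n, hn⟩ := pow_unbounded_of_one_lt ((4 * ρ + 1) / (b - ρ)) hb
  obtain ⟨n', hn'⟩ : ∃ n', n' = n + 1 := ⟨_, rfl⟩
  have hbig : 4 * ρ + 1 < b ^ n' * (b - ρ) := by
    rw [div_lt_iff₀ (by linarith)] at hn
    refine hn.trans_le ?_
    refine mul_le_mul_of_nonneg_right ?_ (by linarith)
    exact pow_le_pow_right₀ hb.le (by omega)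
  obtain ⟨S, r₁, r₂, R, Λ, hI, h1, h12, h2⟩ := hISL β p q r t hC (n' + 1) ρ (by omega) (by linarith)
  obtain ⟨f, g, hfg⟩ := hCUT 1 ρ one_pos hρ1
  -- the centre `u = N`
  obtain ⟨N, hN⟩ : ∃ N : ℕ, N = ⌊b ^ n' * ρ + 2 * ρ⌋₊ + 1 := ⟨_, rfl⟩
  have hpos : 0 ≤ b ^ n' * ρ + 2 * ρ := by positivity
  have hN1 : b ^ n' * ρ + 2 * ρ < N := by
    rw [hN]
    push_cast
    exact Nat.lt_floor_add_one _
  have hN2 : (N : ℝ) ≤ b ^ n' * ρ + 2 * ρ + 1 := by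
    rw [hN]
    push_cast
    have := Nat.floor_le hpos
    linarith
  have hnN : ‖(N : ℂ)‖ = N := by
    rw [Complex.norm_natCast]
  have hz1 : ‖β‖ ^ (((n' + 1 : ℕ) : ℤ) - 1) = b ^ n' := by
    rw [← hbe]
    push_cast
    rw [add_sub_cancel_right, zpow_natCast]
  have hz2 : ‖β‖ ^ ((n' + 1 : ℕ) : ℤ) = b ^ n' * b := by
    rw [← hbe, zpow_natCast, pow_succ]
  have g0 : Gq β 0 (N : ℂ) := by
    have := gq_smul (N : ℚ) (gq_zero_one β)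
    simpa using this
  have g1 : Gq β 1 (N : ℂ) := by
    have := gq_smul (N : ℚ) (gq_one_one hβ0)
    simpa using this
  have hP : Par β (Gq β) ((n' + 1 : ℕ) : ℤ) r₁ r₂ 1 ρ (N : ℂ) := by
    refine ⟨?_, one_pos, hρ1, ?_, h1, h12, ?_, ?_, ?_, g0, g1, gq_neg g0, gq_neg g1, gq_zero β,
      fun l k v h => gq_pow hβ0 l k v h⟩
    · rw [← hbe]; exact hb
    · rw [← hbe, mul_one]; exact hρb
    · push_cast
      omega
    · rw [hz1, hnN]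
      linarith
    · rw [hz2, hnN, mul_one]
      nlinarith
  obtain ⟨t1, t2⟩ := hTZ β (Gq β) S _ r₁ r₂ 1 ρ R Λ (N : ℂ) f g hP hfg hI
  obtain ⟨k1, k2, k3, k4, k5, k6, k7, k8⟩ := hKZ β (Gq β) S _ r₁ r₂ 1 ρ R Λ (N : ℂ) f g hP hfg hI
  have hZ : ZonK β (Gq β) (insert 0 (insert 1 (insert ((n' + 1 : ℕ) : ℤ) S)))
      (ZZ 1 ρ r₂ (N : ℂ)) (TT f g (N : ℂ) R ((n' + 1 : ℕ) : ℤ) ρ)
      (insert 0 (insert (N : ℂ) (insert (-(N : ℂ)) Λ))) (cc β 1)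
      (KK β f g (N : ℂ) S R ((n' + 1 : ℕ) : ℤ)) := by
    refine ⟨k1, k2, fun y hy => (t2 y hy).1, fun y hy => (t2 y hy).2.1, t1,
      fun y hy => (t2 y hy).2.2.1, fun y hy => (t2 y hy).2.2.2, k3, k4, k5, ?_, k6, k7, k8⟩
    intro x
    unfold cc
    split_ifs <;> norm_num
  obtain ⟨Λ', ε, R'', hPat⟩ := hGAS β (Gq β) _ _ _ _ _ _ hβ.one_lt (gq_zero β 0)
    (fun l k v h => gq_pow hβ0 l k v h) hZ
  exact ⟨_, Λ', ε, R'', hPat⟩

end Pool.Agent.Helper71.ISL
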