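import Pool.Agent.Helper71.UN.Defs
import Pool.Agent.Helper56.UN.St

/-!
# Project ISL (MP_d629b1_an, n = 2, stage 2): all complex cubic dilations, by islands

The circle `‖x‖ = ρ` (label `0` inside, `1` outside) is paired by a translation `u` in `Γ 0 ∩ Γ 1` with a circle around
the far point `u` (label `1` inside, `0` outside), inside an island of the label `0` in the region of the label `m`.
Interface definitions and statements of the modules.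
-/

set_option autoImplicit false

open Set Filter Topology
open scoped ContDiff ComplexConjugate

noncomputable section

namespace Pool.Agent.Helper71.ISL

open Pool.Agent.Helper54.TRI (PatC)
open Pool.Agent.Helper56.FM (Gq)
open Pool.Agent.Helper56.UN (CubI)
open Pool.Agent.Helper71.UN

/-- An island kernel: label `0` for `‖x‖ < r₁`, label `m` for `r₂ < ‖x‖`. -/
structure IslK (Γ : ℤ → ℂ → Prop) (S : Finset ℤ) (m : ℤ) (r₁ r₂ : ℝ) (R : ℤ → ℂ → ℂ → ℝ)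
    (Λ : Finset ℂ) : Prop extends KerOK Γ S R Λ where
  inner : ∀ x, ‖x‖ < r₁ → ∀ l u, R l x u = if l = 0 ∧ u = 0 then 1 else 0
  outer : ∀ x, r₂ < ‖x‖ → ∀ l u, R l x u = if l = m ∧ u = 0 then 1 else 0

/-- A pair of cutoff functions, `f = cos² θ`, `g = cos θ sin θ`. -/
structure Cut (ρ₀ ρ₁ : ℝ) (f g : ℂ → ℝ) : Prop where
  fs : ContDiff ℝ ∞ f
  gs : ContDiff ℝ ∞ g
  fi : ∀ x, ‖x‖ ≤ ρ₀ → f x = 1 ∧ g x = 0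
  fo : ∀ x, ρ₁ ≤ ‖x‖ → f x = 0 ∧ g x = 0
  fg : ∀ x, f x * f x + g x * g x = f x

/-- **CUT**.  PROOF.  `θ x = π / 2 * Real.smoothTransition ((‖x‖² - ρ₀²) / (ρ₁² - ρ₀²))`, `f = cos² θ`, `g = cos θ sin θ`;
`‖x‖² = Complex.normSq x` is smooth (`contDiff_norm_sq ℝ`). -/
def StCUT : Prop := ∀ ρ₀ ρ₁ : ℝ, 0 < ρ₀ → ρ₀ < ρ₁ → ∃ f g, Cut ρ₀ ρ₁ f g

/-- The circle part of the kernel of the label `0` (and minus the circle part of the label `1`). -/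
def ci (f g : ℂ → ℝ) (u x v : ℂ) : ℝ :=
  (if v = 0 then f x - f (x - u) else 0) + (if v = u then g x else 0) +
    (if v = -u then g (x - u) else 0)

/-- The smooth part of the kernel of the label `l`. -/
def EE (f g : ℂ → ℝ) (u : ℂ) (R : ℤ → ℂ → ℂ → ℝ) (m l : ℤ) (x v : ℂ) : ℝ :=
  R l (x - u) v - (if l = m ∧ v = 0 then 1 else 0) + (if l = 0 then ci f g u x v else 0) -
    (if l = 1 then ci f g u x v else 0)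

/-- The kernel of the label `l` on the zone. -/
def TT (f g : ℂ → ℝ) (u : ℂ) (R : ℤ → ℂ → ℂ → ℝ) (m : ℤ) (ρ₁ : ℝ) (l : ℤ) (x v : ℂ) : ℝ :=
  EE f g u R m l x v + if l = (if ‖x‖ ≤ ρ₁ then 1 else m) ∧ v = 0 then 1 else 0

/-- The zone: an annulus around `0` and a disc around `u`. -/
def ZZ (ρ₀ ρ₁ r₂ : ℝ) (u : ℂ) : Set ℂ := {x | (ρ₀ ≤ ‖x‖ ∧ ‖x‖ ≤ ρ₁) ∨ ‖x - u‖ ≤ r₂}

/-- The kernel. -/
def KK (β : ℂ) (f g : ℂ → ℝ) (u : ℂ) (S : Finset ℤ) (R : ℤ → ℂ → ℂ → ℝ) (m : ℤ) (x v : ℂ) : ℝ :=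
  ∑ l ∈ insert 0 (insert 1 (insert m S)), EE f g u R m l (β ^ l * x) (β ^ l * v)

/-- The hypotheses on the radii. -/
structure Par (β : ℂ) (Γ : ℤ → ℂ → Prop) (m : ℤ) (r₁ r₂ ρ₀ ρ₁ : ℝ) (u : ℂ) : Prop where
  one : 1 < ‖β‖
  pos : 0 < ρ₀
  lt : ρ₀ < ρ₁
  ann : ρ₁ < ‖β‖ * ρ₀
  inn : ρ₁ < r₁
  r12 : r₁ ≤ r₂
  hm : 2 ≤ m
  h1 : ‖β‖ ^ (m - 1) * ρ₁ + r₂ < ‖u‖
  h2 : ‖u‖ + r₂ < ‖β‖ ^ m * ρ₀
  u0 : Γ 0 u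
  u1 : Γ 1 u
  v0 : Γ 0 (-u)
  v1 : Γ 1 (-u)
  zero : ∀ l, Γ l 0
  cov : ∀ (l k : ℤ) (v : ℂ), Γ l v → Γ (l + k) (β ^ k * v)

/-- A kernel system on a zone `Z` whose dilates are disjoint, and the assembled kernel `K` of the label `0`; off the zones
the labels are pure, `c x = 1` if the label at `x` is `0`. -/
structure ZonK (β : ℂ) (Γ : ℤ → ℂ → Prop) (S : Finset ℤ) (Z : Set ℂ) (T : ℤ → ℂ → ℂ → ℝ)
    (Λ : Finset ℂ) (c : ℂ → ℝ) (K : ℂ → ℂ → ℝ) : Prop where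
  zdisj : ∀ y ∈ Z, ∀ j : ℤ, j ≠ 0 → β ^ j * y ∉ Z
  znz : ∀ y ∈ Z, y ≠ 0
  supp : ∀ y ∈ Z, ∀ l v, T l y v ≠ 0 → v ∈ Λ ∧ Γ l v ∧ y + v ∈ Z
  labs : ∀ y ∈ Z, ∀ l, l ∉ S → ∀ v, T l y v = 0
  symm : ∀ l y v, T l (y + v) (-v) = T l y v
  idem : ∀ y ∈ Z, ∀ l v, ∑ w ∈ Λ, T l y w * T l (y + w) (v - w) = T l y v
  sum : ∀ y ∈ Z, ∀ v, ∑ l ∈ S, T l y v = if v = 0 then 1 else 0
  smooth : ∀ v, ContDiff ℝ ∞ (fun x => K x v)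
  zone : ∀ y ∈ Z, ∀ (j : ℤ) v, K (β ^ (-j) * y) (β ^ (-j) * v) = T j y v
  pure : ∀ x, x ≠ 0 → (∀ j : ℤ, β ^ j * x ∉ Z) → ∀ v, K x v = if v = 0 then c x else 0
  cidem : ∀ x, c x * c x = c x
  csum : ∀ x, x ≠ 0 → (∀ j : ℤ, β ^ j * x ∉ Z) → ∑ᶠ i : ℤ, c (β ^ (-i) * x) = 1
  near : ∃ ε, 0 < ε ∧ ∀ x v, ‖x‖ ≤ ε → K x v = 0
  far : ∃ R, ∀ x v, R ≤ ‖x‖ → K x v = 0

/-- **GAS** (general assembly).  PROOF (compare `Pool/Agent/Helper87/UN/ASM.lean`).  For `x ≠ 0` either there is a unique `j` with `y = β ^ j * x ∈ Z` (ZONE case; `zdisj`), and then `K x v = T j y (β ^ j * v)` by `zone` (with `β ^ j * v` for `v`),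
or there is none (PURE case) and `K x v = [v = 0] c x`.  At `x = 0` all values are `0` (`near`).  `Λ' =` the finite set of all `v` with `K x v ≠ 0` for some `x` (subset of `{0} ∪ {β^(-j) v | j ∈ S, v ∈ Λ}` by `labs`, `supp`).  LAT: `T j y w ≠ 0` gives `Γ j w`, `Γ 0 (β^(-j) w)` (`hcov`).
SYMM: if `K x v ≠ 0`, `v ≠ 0`, then ZONE case, `y + β^j v ∈ Z` (`supp`), so `K (x+v) (-v) = T j (y + β^j v) (-β^j v) = T j y (β^j v)`; if `K (x+v) (-v) ≠ 0` apply this at `x + v`.  IDEM: ZONE case as in `idem_ASM` (finsum, `Equiv.mulLeft₀`); PURE case: only `u = 0`, `c x * c x = c x`.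
TELE: ZONE case: `β^(-i) x` has `β^(j+i) (β^(-i) x) = y`, value `T (j+i) y (β^j v)`, sum over `i` by `labs`, `sum`; PURE case: `β^(-i) x` is again in the PURE case, `csum`. -/
def StGAS : Prop := ∀ (β : ℂ) (Γ : ℤ → ℂ → Prop) (S : Finset ℤ) (Z : Set ℂ) (T : ℤ → ℂ → ℂ → ℝ)
  (Λ : Finset ℂ) (c : ℂ → ℝ) (K : ℂ → ℂ → ℝ), 1 < ‖β‖ → Γ 0 0 →
  (∀ (l k : ℤ) (v : ℂ), Γ l v → Γ (l + k) (β ^ k * v)) → ZonK β Γ S Z T Λ c K →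
  ∃ Λ' ε R', PatC β (Γ 0) K Λ' ε R'

/-- **TZ** (the kernel system on the zone).  `Λ' = insert 0 (insert u (insert (-u) Λ))`, `S' = insert 0 (insert 1 (insert m S))`.  PROOF.  `u ≠ 0` and `u ≠ -u` (`‖u‖ > 0`).  Let `A` be the annulus, `B` the disc; `‖x‖ > ρ₁` on `B` (`h1`, `‖β‖^(m-1) ≥ 1`), and `‖x - u‖ > r₂` for `‖x‖ ≤ ρ₁`.
(0) SYMM holds for all `x`: `R` is symmetric (`KerOK.symm` at `x - u`), `ci f g u (x+v) (-v) = ci f g u x v` (cases `v = 0`, `v = u`, `v = -u`), the last term is nonzero only for `v = 0`.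
(1) for `x ∈ A`: `R l (x-u) v = [l=m, v=0]` (`outer`), `f (x-u) = g (x-u) = 0`, so `T 0 x v = f [v=0] + g [v=u]`, `T 1 x v = (1-f) [v=0] - g [v=u]`, `T l x v = 0` for the other `l` (`f = f x`, `g = g x`).
(2) for `x ∈ B`, `z = x - u`: `f x = g x = 0`, `T l x v = R l z v + ([l=0] - [l=1]) (-(f z) [v=0] + g z [v=-u])`.  (2a) if `‖z‖ < r₁`: `R l z v = [l=0, v=0]`, so `T 0 x v = (1 - f z) [v=0] + g z [v=-u]`, `T 1 x v = f z [v=0] - g z [v=-u]`, others `0`.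
(2b) if `r₁ ≤ ‖z‖`: `f z = g z = 0`, `T l x v = R l z v`; if this is not zero and `v ≠ 0` then `r₁ ≤ ‖z + v‖ ≤ r₂` (`R l (z+v) (-v) ≠ 0`, `inner`, `outer`).
SUPP: (1): `v = u` only if `g x ≠ 0`, then `x + u ∈ B` (`‖x‖ < ρ₁ < r₁ ≤ r₂`), `Γ`: `u0`, `u1`, `zero`; (2a): `v = -u` only if `g z ≠ 0`, then `ρ₀ ≤ ‖z‖ ≤ ρ₁`, `x - u = z ∈ A`; (2b): `KerOK.supp`, `KerOK.lat`, and `‖z + v‖ ≤ r₂`.  LABS: `R l = 0` for `l ∉ S`.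
IDEM: (1): the terms `w = 0`, `w = u`; `T l (x+u)` by (2a) with `z = x`; use `f² + g² = f`.  (2a): the terms `w = 0`, `w = -u`; `T l (x-u) = T l z` by (1).  (2b): all `x + w` with `R l z w ≠ 0` are in case (2b), so the sum is `∑ R l z w * R l (z+w) (v-w) = R l z v` (`KerOK.idem`, `KerOK.supp`). SUM: `∑_l R l z v = [v=0]` (`KerOK.sum`, over `S`; extend to `S'` by `labs`). -/
def StTZ : Prop := ∀ (β : ℂ) (Γ : ℤ → ℂ → Prop) (S : Finset ℤ) (m : ℤ) (r₁ r₂ ρ₀ ρ₁ : ℝ)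
  (R : ℤ → ℂ → ℂ → ℝ) (Λ : Finset ℂ) (u : ℂ) (f g : ℂ → ℝ), Par β Γ m r₁ r₂ ρ₀ ρ₁ u →
  Cut ρ₀ ρ₁ f g → IslK Γ S m r₁ r₂ R Λ →
  (∀ l y v, TT f g u R m ρ₁ l (y + v) (-v) = TT f g u R m ρ₁ l y v) ∧
  ∀ y ∈ ZZ ρ₀ ρ₁ r₂ u,
    (∀ l v, TT f g u R m ρ₁ l y v ≠ 0 → v ∈ insert 0 (insert u (insert (-u) Λ)) ∧ Γ l v ∧
      y + v ∈ ZZ ρ₀ ρ₁ r₂ u) ∧
    (∀ l, l ∉ insert 0 (insert 1 (insert m S)) → ∀ v, TT f g u R m ρ₁ l y v = 0) ∧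
    (∀ l v, ∑ w ∈ insert 0 (insert u (insert (-u) Λ)), TT f g u R m ρ₁ l y w *
      TT f g u R m ρ₁ l (y + w) (v - w) = TT f g u R m ρ₁ l y v) ∧
    ∀ v, ∑ l ∈ insert 0 (insert 1 (insert m S)), TT f g u R m ρ₁ l y v = if v = 0 then 1 else 0

/-- `1` on the annulus of the label `0`. -/
def cc (β : ℂ) (ρ₀ : ℝ) (x : ℂ) : ℝ := if ρ₀ ≤ ‖β * x‖ ∧ ‖x‖ < ρ₀ then 1 else 0

/-- **KZ** (the assembled kernel).  PROOF.  (0) For `x ∉ ZZ`: `R l (x-u) v = [l=m, v=0]`, `f (x-u) = g (x-u) = 0`, `g x = 0`, `f x = [‖x‖ < ρ₀]`, so `EE .. l x v = [v=0] [‖x‖ < ρ₀] ([l=0] - [l=1])`.  ZDISJ: by the norms: if `x ∈ B` (disc) then `‖β‖^(m-1) ρ₁ < ‖x‖ < ‖β‖^m ρ₀`, if `x ∈ A` then `ρ₀ ≤ ‖x‖ ≤ ρ₁ < ‖β‖ ρ₀`;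
compare the norms of `x` and `β^j x`; for `x`, `β^j x ∈ B`, `j ≥ 1`: `‖β^j x‖ ≥ ‖β‖ ‖x‖ > ‖β‖^m ρ₁`.  ZONE: in `KK β .. (β^(-j) y) (β^(-j) v)` the term `l = j` is `EE .. j y v` (if `j` is not in the index set then `EE .. j = 0` by `labs`), the terms `l ≠ j` are at `β^(l-j) y ∉ ZZ`, so their sum is
`[v=0] ([j ≠ 0] [‖β^(-j) y‖ < ρ₀] - [j ≠ 1] [‖β^(1-j) y‖ < ρ₀])`.  For `y ∈ A` this is `[v=0] ([j ≥ 1] - [j ≥ 2]) = [v=0] [j=1]`; for `y ∈ B` it is `[v=0] ([j ≥ m] - [j ≥ m+1]) = [v=0] [j=m]`: this is `TT - EE`.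
PURE: `KK β .. x v = [v=0] ([‖x‖ < ρ₀] - [‖β x‖ < ρ₀]) = [v=0] cc β ρ₀ x`.  CSUM: exactly one `i` has `ρ₀ ≤ ‖β^(1-i) x‖`, `‖β^(-i) x‖ < ρ₀` (`exists_mem_Ioc_zpow` or `exists_mem_Ico_zpow`); finsum with one term.
NEAR: if all `‖β^l x‖ < min ρ₀ (‖u‖ - r₂)` for `l` in the index set, then all `β^l x` are not in the disc, `EE .. l (β^l x) (β^l v) = [v=0] ([l=0] - [l=1])`, sum `0` (in the inner disc this formula for `EE` also holds).  FAR: if all `‖β^l x‖ > max ρ₁ (‖u‖ + r₂)` then all terms are `0`.  SMOOTH: composition. -/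
def StKZ : Prop := ∀ (β : ℂ) (Γ : ℤ → ℂ → Prop) (S : Finset ℤ) (m : ℤ) (r₁ r₂ ρ₀ ρ₁ : ℝ)
  (R : ℤ → ℂ → ℂ → ℝ) (Λ : Finset ℂ) (u : ℂ) (f g : ℂ → ℝ), Par β Γ m r₁ r₂ ρ₀ ρ₁ u →
  Cut ρ₀ ρ₁ f g → IslK Γ S m r₁ r₂ R Λ →
  (∀ y ∈ ZZ ρ₀ ρ₁ r₂ u, ∀ j : ℤ, j ≠ 0 → β ^ j * y ∉ ZZ ρ₀ ρ₁ r₂ u) ∧
  (∀ y ∈ ZZ ρ₀ ρ₁ r₂ u, y ≠ 0) ∧
  (∀ v, ContDiff ℝ ∞ (fun x => KK β f g u S R m x v)) ∧
  (∀ y ∈ ZZ ρ₀ ρ₁ r₂ u, ∀ (j : ℤ) v,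
    KK β f g u S R m (β ^ (-j) * y) (β ^ (-j) * v) = TT f g u R m ρ₁ j y v) ∧
  (∀ x, x ≠ 0 → (∀ j : ℤ, β ^ j * x ∉ ZZ ρ₀ ρ₁ r₂ u) → ∀ v,
    KK β f g u S R m x v = if v = 0 then cc β ρ₀ x else 0) ∧
  (∀ x, x ≠ 0 → (∀ j : ℤ, β ^ j * x ∉ ZZ ρ₀ ρ₁ r₂ u) → ∑ᶠ i : ℤ, cc β ρ₀ (β ^ (-i) * x) = 1) ∧
  (∃ ε, 0 < ε ∧ ∀ x v, ‖x‖ ≤ ε → KK β f g u S R m x v = 0) ∧
  (∃ R', ∀ x v, R' ≤ ‖x‖ → KK β f g u S R m x v = 0)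

/-- **PW** (powers).  PROOF.  `f = X³ + C p X² + C q X + C r` is irreducible over `ℚ` (`Polynomial.irreducible_iff_roots_eq_zero_of_degree_le_three`; see the private theorems in `Pool/Agent/Helper48/UN/M_TR.lean`), so `finrank ℚ ℚ⟮β⟯ = 3` (`IntermediateField.adjoin.finrank`);
`β ^ n` is integral, `ℚ⟮β ^ n⟯ ≤ ℚ⟮β⟯`, `finrank ℚ ℚ⟮β ^ n⟯` divides `3` (tower) and is not `1` (`β ^ n` is not rational, `nrat`), so `minpoly ℚ (β ^ n)` is monic of degree `3` and irreducible; `p' q' r'` are its coefficients; a rational root would contradict irreducibility. -/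
def StPW : Prop := ∀ (β : ℂ) (p q r : ℚ) (t : ℝ), CubI β p q r t → ∀ n : ℕ, n ≠ 0 →
  ∃ p' q' r' : ℚ, (β ^ n) ^ 3 + (p' : ℂ) * (β ^ n) ^ 2 + (q' : ℂ) * β ^ n + (r' : ℂ) = 0 ∧
    ∀ x : ℚ, x ^ 3 + p' * x ^ 2 + q' * x + r' ≠ 0

/-- **TRK** (transfer of a ring kernel to an island kernel).  `z ≠ 0`, `Γ' l v → Γ (m l) (z v)`.  PROOF.  `R l x v = if m ∣ l then R' (l / m) (x / z) (v / z) else 0`, `S = S'.image (m * ·)`, `Λ = Λ'.image (z * ·)`; radii `‖z‖ r₁`, `‖z‖ r₂`.  (The sums over `S` and `Λ` are the sums over `S'`, `Λ'`: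
`Finset.sum_image`, injectivity; `m ≠ 0`.) -/
def StTRK : Prop := ∀ (Γ Γ' : ℤ → ℂ → Prop) (S' : Finset ℤ) (m : ℤ) (r₁ r₂ : ℝ)
  (R' : ℤ → ℂ → ℂ → ℝ) (Λ' : Finset ℂ) (z : ℂ), m ≠ 0 → z ≠ 0 →
  (∀ l v, Γ' l v → Γ (m * l) (z * v)) → RingK Γ' S' r₁ r₂ R' Λ' →
  ∃ S R Λ, IslK Γ S m (‖z‖ * r₁) (‖z‖ * r₂) R Λ

/-- **ISL** (islands of every size). -/
def StISL : Prop := ∀ (β : ℂ) (p q r : ℚ) (t : ℝ), CubI β p q r t → ∀ (n : ℕ) (ρ : ℝ), n ≠ 0 → 0 < ρ →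
  ∃ S r₁ r₂ R Λ, IslK (Gq β) S n r₁ r₂ R Λ ∧ ρ < r₁ ∧ r₁ ≤ r₂ ∧ r₂ < 2 * ρ

end Pool.Agent.Helper71.ISL
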